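import Mathlib

set_option autoImplicit false

namespace Pool.Agent.Results.MP_859259_nt.MissesResidue

theorem result :
    ¬ (∀ (a b : ℕ) (α β : ℤ) (p : ℕ), 0 < b → b < a → p.Prime → Nat.Coprime p a →
        ∀ r < p, Set.Infinite {n : ℕ | 0 < n ∧
          ((a * n + α).toNat.choose (b * n + β).toNat) % p = r}) := by
  intro H
  have key : ∀ m : ℕ, (2 * m).choose m % 3 = 0 ∨ (2 * m).choose m % 3 = 2 ^ m % 3 := by
    intro m
    induction m using Nat.strong_induction_on with
    | _ m ih =>
      rcases Nat.eq_zero_or_pos m with rfl | hm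
      · simp
      have : Fact (Nat.Prime 3) := ⟨by norm_num⟩
      have L : (2 * m).choose m ≡ (2 * m % 3).choose (m % 3) * (2 * m / 3).choose (m / 3) [MOD 3] :=
        Choose.choose_modEq_choose_mod_mul_choose_div_nat
      have h := ih (m / 3) (by omega)
      obtain ⟨q, hq⟩ : ∃ q, m / 3 = q := ⟨_, rfl⟩
      have hp : 2 ^ (3 * q) % 3 = 2 ^ q % 3 := by
        rw [pow_mul, Nat.pow_mod]
        norm_num
      unfold Nat.ModEq at L
      rw [hq] at h L
      have : m = 3 * q ∨ m = 3 * q + 1 ∨ m = 3 * q + 2 := by omega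
      rcases this with h1 | h1 | h1
      · rw [show 2 * m % 3 = 0 by omega, show m % 3 = 0 by omega, show 2 * m / 3 = 2 * q by omega] at L
        rw [L, h1, hp]
        simpa using h
      · rw [show 2 * m % 3 = 2 by omega, show m % 3 = 1 by omega, show 2 * m / 3 = 2 * q by omega] at L
        rw [L, h1, pow_succ]
        norm_num
        omega
      · rw [show 2 * m % 3 = 1 by omega, show m % 3 = 2 by omega] at L
        left
        rw [L]
        norm_num
  obtain ⟨n, -, hn⟩ := (H 4 2 0 0 3 (by norm_num) (by norm_num) (by norm_num) (by norm_num) 2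
    (by norm_num)).nonempty
  have e1 : (((4 : ℕ) : ℤ) * n + 0).toNat = 2 * (2 * n) := by omega
  have e2 : (((2 : ℕ) : ℤ) * n + 0).toNat = 2 * n := by omega
  rw [e1, e2] at hn
  have h3 : 2 ^ (2 * n) % 3 = 1 := by rw [pow_mul, Nat.pow_mod]; simp
  have := key (2 * n)
  omega

end Pool.Agent.Results.MP_859259_nt.MissesResidue
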